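import Pool.Agent.H818.SY.Good
import Pool.Graph.R_pool_sql_team_seeded_620a6dc7.Helper556_sys.Coarse
import Pool.Agent.H818.CS.Fib

/-!
# Bridged graphs with finite cliques: almost invariant measures for families of finite sets
-/

set_option autoImplicit false

namespace Pool.Agent.H818.SY

open SimpleGraph Pool.Agent.Helper556_sys
open Pool.Agent.N313.EX (IsProb n1 n1_eq_sum)

universe v w

variable {V : Type v} {G : SimpleGraph V}

/-- Probability measures with finite support in a ball. -/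
def Sf (G : SimpleGraph V) (x : V) (S : ℕ) : Set (lp (fun _ : V => ℝ) 1) :=
  Sx G x S ∩ {ξ | {v | ξ v ≠ 0}.Finite}

theorem Sf_convex (x : V) (S : ℕ) : Convex ℝ (Sf G x S) := by
  refine (Sx_convex x S).inter ?_
  intro ξ hξ η hη a b _ _ _
  refine (Set.Finite.union hξ hη).subset fun v hv => ?_
  by_contra hcon
  rw [Set.mem_union, not_or] at hcon
  have h1 : ξ v = 0 := not_not.1 hcon.1
  have h2 : η v = 0 := not_not.1 hcon.2
  apply hv
  simp only [lp.coeFn_add, lp.coeFn_smul, Pi.add_apply, Pi.smul_apply, smul_eq_mul, h1, h2,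
    mul_zero, add_zero]

theorem dl_mem' {x v : V} {S : ℕ} (h : G.dist x v ≤ S) : dl v ∈ Sf G x S := by
  classical
  refine ⟨dl_mem h, (Set.finite_singleton v).subset fun w hw => ?_⟩
  by_contra hcon
  apply hw
  unfold dl
  rw [lp.coeFn_single]
  exact Pi.single_eq_of_ne hcon 1

/-- From `ℓ¹` to functions with finite support. -/
theorem to_finsupp {I : Type w} {x : I → V} {S : ℕ} (ξ : I → lp (fun _ : V => ℝ) 1)
    (h : ∀ i, ξ i ∈ Sf G (x i) S) : ∃ b : I → V →₀ ℝ, (∀ i, IsProb (b i)) ∧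
      (∀ i, ∀ v ∈ (b i).support, G.dist (x i) v ≤ S) ∧
      ∀ i j, n1 (b i - b j) = ‖ξ i - ξ j‖ := by
  classical
  let b : I → V →₀ ℝ := fun i => Finsupp.ofSupportFinite (fun v => ξ i v) (h i).2
  have hb : ∀ i v, b i v = ξ i v := fun i v => rfl
  refine ⟨b, fun i => ⟨fun v => (h i).1.1 v, ?_⟩, fun i v hv => ?_, fun i j => ?_⟩
  · have h1 := (h i).1.2.1
    have h2 : HasSum (fun v => ξ i v) (∑ v ∈ (b i).support, ξ i v) := by
      refine hasSum_sum_of_ne_finset_zero fun v hv => ?_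
      rw [Finsupp.notMem_support_iff, hb] at hv
      exact hv
    exact h2.unique h1
  · by_contra hcon
    push Not at hcon
    exact (Finsupp.mem_support_iff.1 hv) ((h i).1.2.2 v hcon)
  · rw [n1_eq_sum (b i - b j) (b i - b j).support subset_rfl]
    have h1 := hasSum_norm_one (ξ i - ξ j)
    have h2 : HasSum (fun v => |(ξ i - ξ j) v|) (∑ v ∈ (b i - b j).support, |(ξ i - ξ j) v|) := by
      refine hasSum_sum_of_ne_finset_zero fun v hv => ?_
      rw [Finsupp.notMem_support_iff, Finsupp.sub_apply, hb, hb] at hv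
      rw [lp.coeFn_sub, Pi.sub_apply, hv, abs_zero]
    rw [← h2.unique h1]
    refine Finset.sum_congr rfl fun v _ => ?_
    rw [Finsupp.sub_apply, hb, hb, lp.coeFn_sub, Pi.sub_apply]

theorem exists_K' (D : ℕ) {ω : ℕ} (hω : 1 ≤ ω) {ε : ℝ} (hε : 0 < ε) :
    ∃ K : ℕ, 0 < K ∧
      8 / (K : ℝ) * Real.log (((2 * (D * (K + 1)) + 1) * (ω * (2 * (D * (K + 1)) + 1)) : ℕ) : ℝ) ≤
        ε / 2 := by
  obtain ⟨K, hK, h⟩ := exists_K (Δ := ω * (2 * D + 1) ^ 2)
    (Nat.one_le_iff_ne_zero.2 (by positivity)) hε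
  refine ⟨K, hK, le_trans ?_ h⟩
  have h1 : (2 * (D * (K + 1)) + 1) * (ω * (2 * (D * (K + 1)) + 1)) ≤
      (2 * (K + 1) + 1) * (ω * (2 * D + 1) ^ 2 * (2 * (K + 1) + 1)) := by
    have h2 : 2 * (D * (K + 1)) + 1 ≤ (2 * D + 1) * (2 * (K + 1) + 1) := by nlinarith
    calc (2 * (D * (K + 1)) + 1) * (ω * (2 * (D * (K + 1)) + 1))
        ≤ ((2 * D + 1) * (2 * (K + 1) + 1)) * (ω * ((2 * D + 1) * (2 * (K + 1) + 1))) := by
          gcongr
      _ = (2 * (K + 1) + 1) * (ω * (2 * D + 1) ^ 2 * (2 * (K + 1) + 1)) := by ring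
  have hKpos : (0 : ℝ) < K := by exact_mod_cast hK
  have h3 : (0 : ℝ) < (((2 * (D * (K + 1)) + 1) * (ω * (2 * (D * (K + 1)) + 1)) : ℕ) : ℝ) := by
    have : 0 < (2 * (D * (K + 1)) + 1) * (ω * (2 * (D * (K + 1)) + 1)) := by positivity
    exact_mod_cast this
  have h4 := Real.log_le_log h3 (by exact_mod_cast h1 : _ ≤
    (((2 * (K + 1) + 1) * (ω * (2 * D + 1) ^ 2 * (2 * (K + 1) + 1)) : ℕ) : ℝ))
  gcongr

/-- Almost invariant measures for a family of increasing sequences of finite sets. -/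
theorem almost_inv (hG : BrL G) {ω : ℕ}
    (hω : ∀ T : Finset V, (∀ s ∈ T, ∀ t ∈ T, G.dist s t ≤ 1) → T.card ≤ ω)
    {I : Type w} (x : I → V) (B : I → ℕ → Finset V) (D : ℕ) (c : ℕ → ℕ)
    (h0 : ∀ i, x i ∈ B i 0) (hm : ∀ i k, B i k ⊆ B i (k + 1))
    (hD : ∀ i k, ∀ p ∈ B i k, G.dist (x i) p ≤ D * k) (hc : ∀ i k, (B i k).card ≤ c k)
    {ε : ℝ} (hε : 0 < ε) :
    ∃ S : ℕ, ∃ b : I → V →₀ ℝ, (∀ i, IsProb (b i)) ∧
      (∀ i, ∀ v ∈ (b i).support, G.dist (x i) v ≤ S) ∧
      ∀ i j, (∀ k, B i k ⊆ B j (k + 1)) → (∀ k, B j k ⊆ B i (k + 1)) → n1 (b i - b j) ≤ ε := by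
  classical
  obtain ⟨o⟩ := hG.conn.nonempty
  have hω1 : 1 ≤ ω := by
    have := hω {o} (by
      intro s hs t ht
      rw [Finset.mem_singleton] at hs ht
      rw [hs, ht, SimpleGraph.dist_self]
      omega)
    simpa using this
  obtain ⟨K, hK, hKε⟩ := exists_K' D hω1 hε
  set c0 : ℝ := 8 / (K : ℝ) *
    Real.log (((2 * (D * (K + 1)) + 1) * (ω * (2 * (D * (K + 1)) + 1)) : ℕ) : ℝ) with hc0
  have hKpos : (0 : ℝ) < K := by exact_mod_cast hK
  have hc0nn : 0 ≤ c0 := by
    have := Real.log_natCast_nonneg ((2 * (D * (K + 1)) + 1) * (ω * (2 * (D * (K + 1)) + 1)))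
    positivity
  set D0 : ℕ := c (K + 1) * (c (K + 1) * (2 * (D * (K + 1)))) with hD0
  obtain ⟨M0, hM0⟩ := exists_nat_gt (8 * (D0 : ℝ) / ε)
  set M : ℕ := M0 + 1 with hM
  have hMpos : (0 : ℝ) < M := by
    rw [hM]
    positivity
  have hMD : 8 * (D0 : ℝ) ≤ M * ε := by
    rw [div_lt_iff₀ hε] at hM0
    have : (M : ℝ) = M0 + 1 := by rw [hM]; push_cast; ring
    rw [this]
    nlinarith
  let a : V → V := al G o
  let b : V → V := be G o
  let P : (V → V) → Prop := fun F => (∀ p q, G.dist (F p) (F q) ≤ G.dist p q) ∧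
    (∀ p q, G.dist o p = G.dist o q → G.dist o (F p) = G.dist o (F q))
  have hP : ∀ F, P F → P (a ∘ F) ∧ P (b ∘ F) := by
    rintro F ⟨h1, h2⟩
    refine ⟨⟨fun p q => (hG.al_lip o _ _).trans (h1 p q), fun p q hpq => ?_⟩,
      ⟨fun p q => (hG.be_lip o _ _).trans (h1 p q), fun p q hpq => ?_⟩⟩
    · show G.dist o (phi G o (phi G o (F p))) = G.dist o (phi G o (phi G o (F q)))
      rw [hG.phi_lev, hG.phi_lev, hG.phi_lev, hG.phi_lev, h2 p q hpq]
    · show G.dist o (fth G o (phi G o (F p))) = G.dist o (fth G o (phi G o (F q)))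
      rw [hG.fth_lev, hG.phi_lev, hG.fth_lev, hG.phi_lev, h2 p q hpq]
  let Q : ℕ → (V → V) → Prop := fun n F => ∀ p, G.dist p (F p) ≤ 4 * n
  have hQ : ∀ n F, Q n F → Q (n + 1) (a ∘ F) ∧ Q (n + 1) (b ∘ F) := by
    intro n F h1
    refine ⟨fun p => ?_, fun p => ?_⟩
    · show G.dist p (phi G o (phi G o (F p))) ≤ 4 * (n + 1)
      have h2 := h1 p
      have h3 := hG.dist_phi o (F p)
      have h4 := hG.dist_phi o (phi G o (F p))
      have h5 := hG.tri p (F p) (phi G o (F p))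
      have h6 := hG.tri p (phi G o (F p)) (phi G o (phi G o (F p)))
      omega
    · show G.dist p (fth G o (phi G o (F p))) ≤ 4 * (n + 1)
      have h2 := h1 p
      have h3 := hG.dist_phi o (F p)
      have h4 := dist_fth hG.toBr o (phi G o (F p))
      have h5 := hG.tri p (F p) (phi G o (F p))
      have h6 := hG.tri p (phi G o (F p)) (fth G o (phi G o (F p)))
      omega
  let A : I → (V → V) → ℕ → Finset V := fun i F k => (B i k).image F
  let g : I → (V → V) → lp (fun _ : V => ℝ) 1 := fun i F => av dl (A i F) K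
  have hx : ∀ i k, x i ∈ B i k := by
    intro i k
    induction k with
    | zero => exact h0 i
    | succ k ih => exact hm i k ih
  have hAne : ∀ i F k, (A i F k).Nonempty := by
    intro i F k
    exact Finset.Nonempty.image ⟨x i, hx i k⟩ F
  -- membership
  have hgmem : ∀ i n F, n ≤ M → Q n F → g i F ∈ Sf G (x i) (D * K + 4 * M) := by
    intro i n F hn hF
    refine av_mem (Sf_convex (x i) _) hK fun k hk => mu_mem (Sf_convex (x i) _) (hAne i F _) ?_
    intro v hv
    rw [Finset.mem_image] at hv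
    obtain ⟨p, hp, rfl⟩ := hv
    apply dl_mem'
    have h1 := hF p
    have h2 := hG.tri (x i) p (F p)
    have h3 : 4 * n ≤ 4 * M := by omega
    have h4 := hD i _ p hp
    have h5 : D * (k + 1) ≤ D * K := Nat.mul_le_mul_left _ (by omega)
    omega
  let ξ : I → lp (fun _ : V => ℝ) 1 := fun i =>
    (M : ℝ)⁻¹ • ∑ t ∈ Finset.range M, Ex a b (g i) t id
  have hξ : ∀ i, ξ i ∈ Sf G (x i) (D * K + 4 * M) := by
    intro i
    show (M : ℝ)⁻¹ • ∑ t ∈ Finset.range M, Ex a b (g i) t id ∈ Sf G (x i) (D * K + 4 * M)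
    rw [Finset.smul_sum]
    refine (Sf_convex (x i) _).sum_mem (fun _ _ => (inv_pos.2 hMpos).le) ?_ fun t ht => ?_
    · rw [Finset.sum_const, nsmul_eq_mul, Finset.card_range, mul_inv_cancel₀ hMpos.ne']
    · rw [Finset.mem_range] at ht
      refine Ex_mem (Sf_convex (x i) _) hQ (m := M) (fun n F hn hF => hgmem i n F hn hF) t 0 id
        (by omega) ?_
      intro p
      show G.dist p (id p) ≤ 4 * 0
      simp
  obtain ⟨bb, hb1, hb2, hb3⟩ := to_finsupp ξ hξ
  refine ⟨D * K + 4 * M, bb, hb1, hb2, fun i j hij hji => ?_⟩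
  rw [hb3]
  have hstep : ∀ F, P F → ‖g i F - g j F‖ ≤ c0 + 2 * bad G o (B i (K + 1)) F := by
    intro F hF
    by_cases hbad : bad G o (B i (K + 1)) F = 0
    · rw [hbad, mul_zero, add_zero]
      have hmono : ∀ k, A i F k ⊆ A i F (k + 1) := fun k =>
        Finset.image_subset_image (hm i k)
      have h1 := av_sub_le (δ := dl) dl_norm (A := A i F) (B := A j F) hK (hAne i F 0) hmono
        (fun k => Finset.image_subset_image (hij k)) (fun k => Finset.image_subset_image (hji k))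
      refine h1.trans ?_
      have h2 := hG.good_card hω (hD i (K + 1)) hF.1 hF.2 hbad
      have h3 : (0 : ℝ) < (A i F (K + 1)).card := by
        exact_mod_cast (hAne i F (K + 1)).card_pos
      have h4 : ((A i F (K + 1)).card : ℝ) ≤
          (((2 * (D * (K + 1)) + 1) * (ω * (2 * (D * (K + 1)) + 1)) : ℕ) : ℝ) := by
        exact_mod_cast h2
      have h5 := Real.log_le_log h3 h4
      rw [hc0]
      gcongr
    · have hb1 : bad G o (B i (K + 1)) F = 1 := by
        unfold bad at hbad ⊢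
        split_ifs at hbad ⊢ with h
        · rfl
        · exact absurd rfl hbad
      have hn : ∀ z, ‖g z F‖ ≤ 1 := by
        intro z
        have hconv := norm_le_one_convex (E := lp (fun _ : V => ℝ) 1)
        exact av_mem hconv hK fun k _ => mu_mem hconv (hAne z F _) fun v _ => dl_norm v
      have h1 := norm_sub_le (g i F) (g j F)
      have h2 := hn i
      have h3 := hn j
      rw [hb1]
      linarith
  have hPid : P id := ⟨fun p q => le_rfl, fun p q h => h⟩
  have hex : ∀ t, ‖Ex a b (g i) t id - Ex a b (g j) t id‖ ≤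
      c0 + 2 * Ex a b (bad G o (B i (K + 1))) t id := by
    intro t
    have h1 := Ex_norm_le hP hstep t id hPid
    rwa [Ex_affine] at h1
  have hsum := Ex_sum_le (a := a) (b := b) (bad := bad G o (B i (K + 1)))
    (D := fun F => (DN G o (B i (K + 1)) F : ℝ)) (fun F => Nat.cast_nonneg _)
    (fun F => hG.bad_drop o _ F) M id
  have hDN : DN G o (B i (K + 1)) id ≤ D0 := by
    unfold DN
    have hin : ∀ p ∈ B i (K + 1), ∀ q ∈ B i (K + 1),
        (if G.dist o p = G.dist o q then G.dist (id p) (id q) else 0) ≤ 2 * (D * (K + 1)) := by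
      intro p hp q hq
      have h1 := hD i _ p hp
      have h2 := hD i _ q hq
      split_ifs
      · have h3 := hG.tri p (x i) q
        rw [SimpleGraph.dist_comm (u := p) (v := x i)] at h3
        simp only [id]
        omega
      · omega
    calc (∑ p ∈ B i (K + 1), ∑ q ∈ B i (K + 1),
          if G.dist o p = G.dist o q then G.dist (id p) (id q) else 0)
        ≤ ∑ p ∈ B i (K + 1), ∑ q ∈ B i (K + 1), 2 * (D * (K + 1)) :=
          Finset.sum_le_sum fun p hp => Finset.sum_le_sum fun q hq => hin p hp q hq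
      _ = (B i (K + 1)).card * ((B i (K + 1)).card * (2 * (D * (K + 1)))) := by
          simp [Finset.sum_const]
      _ ≤ D0 := by
          rw [hD0]
          have := hc i (K + 1)
          gcongr
  have hDN' : (DN G o (B i (K + 1)) id : ℝ) ≤ D0 := by exact_mod_cast hDN
  show ‖(M : ℝ)⁻¹ • ∑ t ∈ Finset.range M, Ex a b (g i) t id -
    (M : ℝ)⁻¹ • ∑ t ∈ Finset.range M, Ex a b (g j) t id‖ ≤ ε
  rw [← smul_sub, ← Finset.sum_sub_distrib, norm_smul, norm_inv, Real.norm_of_nonneg hMpos.le]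
  have h1 : ‖∑ t ∈ Finset.range M, (Ex a b (g i) t id - Ex a b (g j) t id)‖ ≤
      M * c0 + 4 * D0 := by
    calc ‖∑ t ∈ Finset.range M, (Ex a b (g i) t id - Ex a b (g j) t id)‖
        ≤ ∑ t ∈ Finset.range M, (c0 + 2 * Ex a b (bad G o (B i (K + 1))) t id) :=
          (norm_sum_le _ _).trans (Finset.sum_le_sum fun t _ => hex t)
      _ = M * c0 + 2 * ∑ t ∈ Finset.range M, Ex a b (bad G o (B i (K + 1))) t id := by
          rw [Finset.sum_add_distrib, Finset.sum_const, Finset.card_range, nsmul_eq_mul,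
            Finset.mul_sum]
      _ ≤ M * c0 + 4 * D0 := by linarith
  rw [inv_mul_le_iff₀ hMpos]
  refine h1.trans ?_
  nlinarith

end Pool.Agent.H818.SY
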