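import Pool.Graph.R_pool_sql_team_seeded_620a6dc7.Helper556_sys.Core

/-!
# Bridged graphs: first steps towards the points of a horizontal set
-/

set_option autoImplicit false

namespace Pool.Agent.H818.SY

open SimpleGraph Pool.Agent.Q255.Bridged Pool.Agent.Helper556_sys

variable {V : Type*} {G : SimpleGraph V}

/-- First steps from `o` towards two adjacent vertices at the same distance from `o` are equal or
adjacent. -/
theorem first_adj (hG : Br G) : ∀ (d : ℕ) (o x x' z z' : V), G.Adj x x' → G.dist o x = d →
    G.dist o x' = d → G.Adj o z → G.Adj o z' → G.dist z x + 1 = d → G.dist z' x' + 1 = d →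
    z = z' ∨ G.Adj z z' := by
  intro d
  induction d with
  | zero =>
    intro o x x' z z' _ _ _ _ _ h _
    omega
  | succ d ih =>
    intro o x x' z z' hxx hox hox' hoz hoz' hz hz'
    have cox := SimpleGraph.dist_comm (G := G) (u := o) (v := x)
    have cox' := SimpleGraph.dist_comm (G := G) (u := o) (v := x')
    have czx := SimpleGraph.dist_comm (G := G) (u := z) (v := x)
    have czx' := SimpleGraph.dist_comm (G := G) (u := z') (v := x')
    rcases Nat.eq_zero_or_pos d with h0 | h0
    · have h1 := hG.eq_zero (a := z) (b := x) (by omega)
      have h2 := hG.eq_zero (a := z') (b := x') (by omega)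
      rw [h1, h2]
      exact Or.inr hxx
    · -- the common lower neighbour
      obtain ⟨w, hw1, hw2, hw3⟩ := hG.tc o x x' hxx (by omega)
      obtain ⟨y, hoy, hyw⟩ := hG.step (a := o) (b := w) (by omega)
      have e1 := hG.lip1 hw1.symm y
      have e2 := hG.lip1 hw2.symm y
      have e3 := hG.tri o y x
      have e4 := hG.tri o y x'
      have e5 := hG.one hoy
      have cyx := SimpleGraph.dist_comm (G := G) (u := y) (v := x)
      have cyx' := SimpleGraph.dist_comm (G := G) (u := y) (v := x')
      have hzy := hG.inc x o z y hoz hoy (by omega) (by omega)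
      have hzy' := hG.inc x' o z' y hoz' hoy (by omega) (by omega)
      -- if a first step is also a first step towards the other vertex we are done
      have key : G.dist z x' ≤ d → z = z' ∨ G.Adj z z' := by
        intro h
        have c := SimpleGraph.dist_comm (G := G) (u := z) (v := x')
        have e6 := hG.tri o z x'
        have e7 := hG.one hoz
        exact hG.inc x' o z z' hoz hoz' (by omega) (by omega)
      have key' : G.dist z' x ≤ d → z = z' ∨ G.Adj z z' := by
        intro h
        have c := SimpleGraph.dist_comm (G := G) (u := z') (v := x)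
        have e6 := hG.tri o z' x
        have e7 := hG.one hoz'
        exact hG.inc x o z z' hoz hoz' (by omega) (by omega)
      rcases hzy with rfl | hzy
      · exact key (by omega)
      rcases hzy' with rfl | hzy'
      · exact key' (by omega)
      obtain ⟨t, ht1, ht2, ht3⟩ := hG.tc x z y hzy (by omega)
      obtain ⟨t', ht1', ht2', ht3'⟩ := hG.tc x' z' y hzy' (by omega)
      have ctx := SimpleGraph.dist_comm (G := G) (u := t) (v := x)
      have ctx' := SimpleGraph.dist_comm (G := G) (u := t') (v := x')
      have htt := ih y x x' t t' hxx (by omega) (by omega) ht2.symm ht2'.symm (by omega) (by omega)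
      have hot : ¬ G.Adj o t := by
        intro h
        have e6 := hG.tri o t x
        have e7 := hG.one h
        omega
      have hot' : ¬ G.Adj o t' := by
        intro h
        have e6 := hG.tri o t' x'
        have e7 := hG.one h
        omega
      by_cases hne : z = z'
      · exact Or.inl hne
      by_cases hzz : G.Adj z z'
      · exact Or.inr hzz
      exfalso
      have hzt' : ¬ G.Adj z t' := by
        intro h
        have e6 := hG.tri z t' x'
        have e7 := hG.one h
        rcases key (by omega) with h1 | h1
        · exact hne h1
        · exact hzz h1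
      have hz't : ¬ G.Adj z' t := by
        intro h
        have e6 := hG.tri z' t x
        have e7 := hG.one h
        rcases key' (by omega) with h1 | h1
        · exact hne h1
        · exact hzz h1
      rcases htt with rfl | htt
      · exact hz't ht1'.symm
      · have hot_ne : o ≠ t := by
          rintro rfl
          omega
        have hot_ne' : o ≠ t' := by
          rintro rfl
          omega
        have hzt_ne' : z ≠ t' := by
          rintro rfl
          exact hzz ht1'
        have hz't_ne : t ≠ z' := by
          rintro rfl
          exact hzz ht1.symm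
        rcases hG.c5 o z t t' z' hoz ht1.symm htt ht1' hoz'.symm hot_ne hot_ne' hzt_ne' hne
          hz't_ne with h | h | h | h | h
        · exact hot h
        · exact hot' h
        · exact hzt' h
        · exact hzz h
        · exact hz't h.symm

/-- First steps from `o` towards two vertices at the same distance from `o` are equal or adjacent,
provided that the interval between the two vertices does not get closer to `o`. -/
theorem first_horiz (hG : Br G) : ∀ (n : ℕ) (d : ℕ) (o x x' z z' : V), G.dist x x' = n →
    G.dist o x = d → G.dist o x' = d →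
    (∀ c, G.dist x c + G.dist c x' = G.dist x x' → d ≤ G.dist o c) →
    G.Adj o z → G.Adj o z' → G.dist z x + 1 = d → G.dist z' x' + 1 = d →
    z = z' ∨ G.Adj z z' := by
  intro n
  induction n using Nat.strong_induction_on with
  | _ n ih =>
    intro d o x x' z z' hn hox hox' hh hoz hoz' hz hz'
    have cox := SimpleGraph.dist_comm (G := G) (u := o) (v := x)
    have cox' := SimpleGraph.dist_comm (G := G) (u := o) (v := x')
    have czx := SimpleGraph.dist_comm (G := G) (u := z) (v := x)
    have czx' := SimpleGraph.dist_comm (G := G) (u := z') (v := x')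
    have cxx' := SimpleGraph.dist_comm (G := G) (u := x) (v := x')
    have eoz := hG.one hoz
    have eoz' := hG.one hoz'
    rcases Nat.lt_or_ge n 2 with hn2 | hn2
    · have hcase : n = 0 ∨ n = 1 := by omega
      rcases hcase with h0 | h0
      · have := hG.eq_zero (a := x) (b := x') (by omega)
        subst this
        exact hG.inc x o z z' hoz hoz' (by omega) (by omega)
      · exact first_adj hG d o x x' z z' (dist_eq_one_iff_adj.1 (by omega)) hox hox' hoz hoz' hz hz'
    · -- `n ≥ 2`
      have hd2 : 2 ≤ d := by
        by_contra hd
        have hd1 : d = 1 := by omega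
        have h1 := hG.tri x o x'
        have h2 := hh o (by omega)
        rw [SimpleGraph.dist_self] at h2
        omega
      have e1 := hG.tri o z x'
      have e2 := hG.tri z o x'
      have czo := SimpleGraph.dist_comm (G := G) (u := z) (v := o)
      rcases Nat.lt_or_ge (G.dist z x') d with h1 | h1
      · exact hG.inc x' o z z' hoz hoz' (by
          rw [SimpleGraph.dist_comm (u := x') (v := z)]; omega) (by omega)
      obtain ⟨y, hy1, hy2, hy3⟩ := hG.down _ z x' x rfl (by omega)
      -- `y` is a neighbour of `x'` in the interval
      have eyx' := hG.one hy1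
      have cyx' := SimpleGraph.dist_comm (G := G) (u := y) (v := x')
      have cyx := SimpleGraph.dist_comm (G := G) (u := y) (v := x)
      have hoy1 := hh y (by omega)
      have hoy2 := hG.conv o (v := x) (w := x') (c := y) (by omega)
      rw [hox, hox', max_self] at hoy2
      have hoy : G.dist o y = d := le_antisymm hoy2 hoy1
      obtain ⟨w, hw1, hw2, hw3⟩ := hG.tc o y x' hy1 (by omega)
      obtain ⟨u, hou, huw⟩ := hG.step (a := o) (b := w) (by omega)
      have eou := hG.one hou
      have e3 := hG.lip1 hw1.symm u
      have e4 := hG.lip1 hw2.symm u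
      have e5 := hG.tri o u y
      have e6 := hG.tri o u x'
      have hzu := ih (n - 1) (by omega) d o x y z u (by omega) hox hoy (by
        intro c hc
        refine hh c ?_
        have h2 := hG.tri c y x'
        have h3 := hG.tri x c x'
        omega) hoz hou hz (by omega)
      have h2 : G.dist z x' ≤ d := by
        rcases hzu with rfl | hzu
        · omega
        · have h3 := hG.one hzu
          have h4 := hG.tri z u x'
          omega
      exact first_adj hG d o y x' z z' hy1 hoy hox' hoz hoz' (by omega) hz'

/-- A set of points at distance `d` from `o`, such that the intervals between them do not get closer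
to `o`, has at most `ω ^ d` elements if the cliques have at most `ω` elements. -/
theorem card_horiz (hG : Br G) {ω : ℕ}
    (hω : ∀ T : Finset V, (∀ s ∈ T, ∀ t ∈ T, G.dist s t ≤ 1) → T.card ≤ ω) :
    ∀ (d : ℕ) (o : V) (P : Finset V), (∀ p ∈ P, G.dist o p = d) →
      (∀ p ∈ P, ∀ q ∈ P, ∀ c, G.dist p c + G.dist c q = G.dist p q → d ≤ G.dist o c) →
      P.card ≤ ω ^ d := by
  classical
  intro d
  induction d with
  | zero =>
    intro o P hP _
    rw [pow_zero, Finset.card_le_one]
    intro a ha b hb
    exact (hG.eq_zero (hP a ha)).symm.trans (hG.eq_zero (hP b hb))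
  | succ d ih =>
    intro o P hP hI
    have hstep : ∀ p : V, ∃ z : V, p ∈ P → G.Adj o z ∧ G.dist z p + 1 = G.dist o p := by
      intro p
      by_cases hp : p ∈ P
      · obtain ⟨z, hz1, hz2⟩ := hG.step (a := o) (b := p) (by rw [hP p hp]; omega)
        exact ⟨z, fun _ => ⟨hz1, hz2⟩⟩
      · exact ⟨p, fun h => absurd h hp⟩
    choose z hz using hstep
    have hmaps : ∀ p ∈ P, z p ∈ P.image z := fun p hp => Finset.mem_image_of_mem z hp
    have hcard := Finset.card_le_mul_card_image_of_maps_to hmaps (ω ^ d) (by
      intro a _
      refine ih a _ ?_ ?_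
      · intro p hp
        rw [Finset.mem_filter] at hp
        have h1 := (hz p hp.1).2
        rw [hp.2, hP p hp.1] at h1
        omega
      · intro p hp q hq c hc
        rw [Finset.mem_filter] at hp hq
        have h1 := hI p hp.1 q hq.1 c hc
        have h2 := hG.one (hz p hp.1).1
        rw [hp.2] at h2
        have h3 := hG.tri o a c
        omega)
    have himg : (P.image z).card ≤ ω := by
      refine hω _ fun s hs t ht => ?_
      rw [Finset.mem_image] at hs ht
      obtain ⟨p, hp, rfl⟩ := hs
      obtain ⟨q, hq, rfl⟩ := ht
      have h1 := hP p hp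
      have h2 := hP q hq
      have h3 := (hz p hp).2
      have h4 := (hz q hq).2
      exact hG.le_one (first_horiz hG _ (d + 1) o p q (z p) (z q) rfl h1 h2 (hI p hp q hq)
        (hz p hp).1 (hz q hq).1 (by omega) (by omega))
    calc P.card ≤ ω ^ d * (P.image z).card := hcard
      _ ≤ ω ^ d * ω := Nat.mul_le_mul_left _ himg
      _ = ω ^ (d + 1) := (pow_succ _ _).symm

/-- The intervals are finite. -/
theorem interval_finite (hG : Br G)
    (hfin : ∀ o v, {z | G.Adj z v ∧ G.dist o z + 1 = G.dist o v}.Finite) :
    ∀ (n : ℕ) (x y : V), G.dist x y = n →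
      {c | G.dist x c + G.dist c y = G.dist x y}.Finite := by
  intro n
  induction n with
  | zero =>
    intro x y h
    refine (Set.finite_singleton x).subset fun c hc => ?_
    have hc' : G.dist x c + G.dist c y = G.dist x y := hc
    exact (hG.eq_zero (a := x) (b := c) (by omega)).symm
  | succ n ih =>
    intro x y h
    have h1 : ({y} ∪ ⋃ z ∈ {z | G.Adj z y ∧ G.dist x z + 1 = G.dist x y},
        {c | G.dist x c + G.dist c z = G.dist x z}).Finite := by
      refine (Set.finite_singleton y).union ((hfin x y).biUnion fun z hz => ?_)
      have hz' : G.Adj z y ∧ G.dist x z + 1 = G.dist x y := hz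
      exact ih x z (by omega)
    refine h1.subset fun c hc => ?_
    have hc' : G.dist x c + G.dist c y = G.dist x y := hc
    rcases Nat.eq_zero_or_pos (G.dist c y) with h2 | h2
    · left
      exact hG.eq_zero h2
    · right
      obtain ⟨z, hz1, hz2⟩ := hG.step (a := y) (b := c) (by rw [SimpleGraph.dist_comm]; exact h2)
      have h3 := hG.one hz1
      have c1 := SimpleGraph.dist_comm (G := G) (u := y) (v := z)
      have c2 := SimpleGraph.dist_comm (G := G) (u := y) (v := c)
      have c3 := SimpleGraph.dist_comm (G := G) (u := z) (v := c)
      have h4 := hG.tri x c z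
      have h5 := hG.tri x z y
      rw [Set.mem_iUnion₂]
      exact ⟨z, ⟨hz1.symm, by omega⟩, show _ = _ by omega⟩

/-- If the cliques have at most `ω` elements, then the sets of lower neighbours are finite. -/
theorem lower_finite (hG : Br G) {ω : ℕ}
    (hω : ∀ T : Finset V, (∀ s ∈ T, ∀ t ∈ T, G.dist s t ≤ 1) → T.card ≤ ω) (o v : V) :
    {z | G.Adj z v ∧ G.dist o z + 1 = G.dist o v}.Finite := by
  by_contra hinf
  obtain ⟨T, hT1, hT2⟩ := Set.Infinite.exists_subset_card_eq hinf (ω + 1)
  have h := hω T (fun s hs t ht => by
    have h1 : G.Adj s v ∧ G.dist o s + 1 = G.dist o v := hT1 hs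
    have h2 : G.Adj t v ∧ G.dist o t + 1 = G.dist o v := hT1 ht
    exact hG.le_one (hG.inc o v s t h1.1.symm h2.1.symm h1.2 h2.2))
  omega

end Pool.Agent.H818.SY
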