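import Pool.Agent.H818.SY.Base

/-!
# Bridged graphs with finite cliques: counting points of rigid sets
-/

set_option autoImplicit false

namespace Pool.Agent.H818.SY

open SimpleGraph Pool.Agent.Q255.Bridged Pool.Agent.Helper556_sys

variable {V : Type*} {G : SimpleGraph V}

namespace BrL

theorem card_le (hG : BrL G) {o : V} {k R Δ : ℕ}
    (Q : Finset V) (hl : ∀ q ∈ Q, G.dist o q = k)
    (ha : ∀ p ∈ Q, ∀ q ∈ Q, G.dist (al G o p) (al G o q) = G.dist p q)
    (hb : ∀ p ∈ Q, ∀ q ∈ Q, G.dist (be G o p) (be G o q) = G.dist p q)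
    (hR : ∀ p ∈ Q, ∀ q ∈ Q, G.dist p q ≤ R)
    (hΔ : ∀ T : Finset V, (∀ s ∈ T, ∀ t ∈ T, G.dist s t ≤ 1) → T.card ≤ Δ) :
    Q.card ≤ Δ * (R + 1) := by
  classical
  rcases Q.eq_empty_or_nonempty with rfl | hne
  · simp
  -- the projection is isometric on `Q`
  have hp : ∀ p ∈ Q, ∀ q ∈ Q, G.dist (phi G o p) (phi G o q) = G.dist p q := by
    intro p hp q hq
    have h1 := ha p hp q hq
    have h2 := hG.phi_lip o p q
    have h3 := hG.phi_lip o (phi G o p) (phi G o q)
    unfold al at h1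
    omega
  have hpp : ∀ p ∈ Q, ∀ q ∈ Q, G.dist (phi G o (phi G o p)) (phi G o (phi G o q)) =
      G.dist (phi G o p) (phi G o q) := by
    intro p h1 q h2
    rw [hp p h1 q h2]
    exact ha p h1 q h2
  have hfp : ∀ p ∈ Q, ∀ q ∈ Q, G.dist (fth G o (phi G o p)) (fth G o (phi G o q)) =
      G.dist (phi G o p) (phi G o q) := by
    intro p h1 q h2
    rw [hp p h1 q h2]
    exact hb p h1 q h2
  have hinj : ∀ p ∈ Q, ∀ q ∈ Q, phi G o p = phi G o q → p = q := by
    intro p h1 q h2 h
    apply hG.eq_zero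
    rw [← hp p h1 q h2, h, SimpleGraph.dist_self]
  have hlev : ∀ q ∈ Q, G.dist o (phi G o q) = k - 2 := by
    intro q hq
    rw [hG.phi_lev, hl q hq]
  -- the smallest point
  obtain ⟨q1, hq1, hmin⟩ : ∃ q1 ∈ Q, ∀ q ∈ Q, ¬ lt G o (k - 2) (phi G o q) (phi G o q1) := by
    have hset : (phi G o '' (Q : Set V)).Nonempty := by
      obtain ⟨q, hq⟩ := hne
      exact ⟨phi G o q, q, hq, rfl⟩
    have h1 := (ord G (G.dist o) (k - 2)).2.toIsWellFounded.wf.min_mem _ hset
    obtain ⟨q1, hq1, hq1'⟩ := h1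
    refine ⟨q1, hq1, fun q hq => ?_⟩
    have h2 := (ord G (G.dist o) (k - 2)).2.toIsWellFounded.wf.not_lt_min _
      (show phi G o q ∈ phi G o '' (Q : Set V) from ⟨q, hq, rfl⟩)
    rw [← hq1'] at h2
    exact h2
  have hmin' : ∀ q ∈ Q, q ≠ q1 → lt G o (k - 2) (phi G o q1) (phi G o q) := by
    intro q hq hne'
    rcases lt_tri (G := G) o (k - 2) (phi G o q1) (phi G o q) with h | h | h
    · exact h
    · exact absurd (hinj _ hq1 _ hq h).symm hne'
    · exact absurd h (hmin q hq)
  -- points at the same distance from the smallest point are close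
  have hclose : ∀ p ∈ Q, ∀ q ∈ Q, G.dist q1 p = G.dist q1 q → G.dist p q ≤ 1 := by
    intro p hpQ q hqQ hd
    wlog hlt : lt G o (k - 2) (phi G o p) (phi G o q) generalizing p q
    · rcases lt_tri (G := G) o (k - 2) (phi G o p) (phi G o q) with h | h | h
      · exact absurd h hlt
      · rw [hinj _ hpQ _ hqQ h, SimpleGraph.dist_self]
        omega
      · rw [SimpleGraph.dist_comm]
        exact this q hqQ p hpQ hd.symm h
    rcases eq_or_ne p q1 with rfl | hp1
    · rw [SimpleGraph.dist_self] at hd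
      omega
    have h1 := hmin' p hpQ hp1
    have h2 : Br.Sep G (phi G o p) (phi G o q1) (phi G o q) := by
      refine hG.sep_mid (o := o) (by rw [hlev p hpQ, hlev q1 hq1])
        (by rw [hlev p hpQ, hlev q hqQ]) (hpp p hpQ q1 hq1) (hpp p hpQ q hqQ) (hfp p hpQ q hqQ)
        ?_ ?_
      · rw [hlev p hpQ]
        exact h1
      · rw [hlev p hpQ]
        exact hlt
    have h3 := hG.collinear (o := o) (by rw [hl p hpQ, hl q1 hq1])
      (by rw [hl p hpQ, hl q hqQ]) (hp p hpQ q1 hq1) (hp p hpQ q hqQ) h2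
    have c1 := SimpleGraph.dist_comm (G := G) (u := p) (v := q1)
    omega
  have hmaps : ∀ q ∈ Q, G.dist q1 q ∈ Finset.range (R + 1) := by
    intro q hq
    rw [Finset.mem_range]
    have := hR q1 hq1 q hq
    omega
  have hcard := Finset.card_le_mul_card_image_of_maps_to hmaps Δ (by
    intro D _
    rcases (Q.filter (fun q => G.dist q1 q = D)).eq_empty_or_nonempty with h | ⟨p, hp'⟩
    · rw [h]
      simp
    · apply hΔ
      intro s hs t ht
      rw [Finset.mem_filter] at hs ht
      exact hclose s hs.1 t ht.1 (by rw [hs.2, ht.2]))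
  rwa [Finset.card_range] at hcard


end BrL

end Pool.Agent.H818.SY
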