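import Pool.Agent.H818.SY.Cnt

/-!
# Bridged graphs with finite cliques: the loss of distance, the good case
-/

set_option autoImplicit false

namespace Pool.Agent.H818.SY

open SimpleGraph Pool.Agent.Q255.Bridged Pool.Agent.Helper556_sys

variable {V : Type*} {G : SimpleGraph V}

namespace BrL

theorem dist_phi (hG : BrL G) (o v : V) :
    G.dist v (phi G o v) ≤ 2 := by
  rcases Nat.lt_or_ge (G.dist o v) 2 with h | h
  · rw [hG.phi_low (by omega), SimpleGraph.dist_comm]
    omega
  · obtain ⟨h1, h2⟩ := hG.phi_spec h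
    have h3 := hG.fth_adj (o := o) (v := v) (by omega)
    have h4 := hG.fth_lev o v
    have h5 := hG.one (h2 _ h3 (by omega)).symm
    have h6 := hG.one h3.symm
    have h7 := hG.tri v (fth G o v) (phi G o v)
    omega

theorem al_lip (hG : BrL G) (o u v : V) :
    G.dist (al G o u) (al G o v) ≤ G.dist u v :=
  (hG.phi_lip o _ _).trans (hG.phi_lip o _ _)

theorem be_lip (hG : BrL G) (o u v : V) :
    G.dist (be G o u) (be G o v) ≤ G.dist u v :=
  (hG.fth_lip o _ _).trans (hG.phi_lip o _ _)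

theorem bad_drop (hG : BrL G) (o : V) (B : Finset V)
    (F : V → V) : bad G o B F + (DN G o B (al G o ∘ F) : ℝ) + (DN G o B (be G o ∘ F) : ℝ) ≤
      2 * (DN G o B F : ℝ) := by
  have h1 : DN G o B (al G o ∘ F) ≤ DN G o B F := DN_le fun p q => hG.al_lip o _ _
  have h2 : DN G o B (be G o ∘ F) ≤ DN G o B F := DN_le fun p q => hG.be_lip o _ _
  unfold bad
  split_ifs with h
  · have h3 : DN G o B (al G o ∘ F) + DN G o B (be G o ∘ F) + 1 ≤ 2 * DN G o B F := h
    have h4 : ((DN G o B (al G o ∘ F) + DN G o B (be G o ∘ F) + 1 : ℕ) : ℝ) ≤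
        ((2 * DN G o B F : ℕ) : ℝ) := by exact_mod_cast h3
    push_cast at h4
    linarith
  · have h3 : ((DN G o B (al G o ∘ F) + DN G o B (be G o ∘ F) : ℕ) : ℝ) ≤
        ((2 * DN G o B F : ℕ) : ℝ) := by exact_mod_cast (by omega)
    push_cast at h3
    linarith

/-- The good case: a polynomial bound. -/
theorem good_card (hG : BrL G) {o x : V} {R Δ : ℕ}
    (hΔ : ∀ T : Finset V, (∀ s ∈ T, ∀ t ∈ T, G.dist s t ≤ 1) → T.card ≤ Δ)
    {B : Finset V} (hB : ∀ q ∈ B, G.dist x q ≤ R) {F : V → V}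
    (hF1 : ∀ p q, G.dist (F p) (F q) ≤ G.dist p q)
    (hF2 : ∀ p q, G.dist o p = G.dist o q → G.dist o (F p) = G.dist o (F q))
    (hgood : bad G o B F = 0) [DecidableEq V] :
    (B.image F).card ≤ (2 * R + 1) * (Δ * (2 * R + 1)) := by
  classical
  have h1 : DN G o B (al G o ∘ F) ≤ DN G o B F := DN_le fun p q => hG.al_lip o _ _
  have h2 : DN G o B (be G o ∘ F) ≤ DN G o B F := DN_le fun p q => hG.be_lip o _ _
  have h3 : ¬ (DN G o B (al G o ∘ F) + DN G o B (be G o ∘ F) < 2 * DN G o B F) := by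
    intro h
    unfold bad at hgood
    rw [if_pos h] at hgood
    norm_num at hgood
  have ha := DN_eq (G := G) (o := o) (B := B) (F := F) (F' := al G o ∘ F)
    (fun p q => hG.al_lip o _ _) (by omega)
  have hb := DN_eq (G := G) (o := o) (B := B) (F := F) (F' := be G o ∘ F)
    (fun p q => hG.be_lip o _ _) (by omega)
  let J : Finset ℕ := Finset.Icc (G.dist o x - R) (G.dist o x + R)
  have hJ : J.card ≤ 2 * R + 1 := by
    simp only [J, Nat.card_Icc]
    omega
  have hsub : B.image F ⊆ J.biUnion fun j => (B.filter fun p => G.dist o p = j).image F := by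
    intro w hw
    rw [Finset.mem_image] at hw
    obtain ⟨p, hp, rfl⟩ := hw
    rw [Finset.mem_biUnion]
    refine ⟨G.dist o p, ?_, ?_⟩
    · have h4 := hB p hp
      have h5 := hG.tri o x p
      have h6 := hG.tri o p x
      rw [SimpleGraph.dist_comm (u := p) (v := x)] at h6
      simp only [J, Finset.mem_Icc]
      omega
    · rw [Finset.mem_image]
      exact ⟨p, by rw [Finset.mem_filter]; exact ⟨hp, rfl⟩, rfl⟩
  refine (Finset.card_le_card hsub).trans ((Finset.card_biUnion_le_card_mul _ _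
    (Δ * (2 * R + 1)) ?_).trans (Nat.mul_le_mul_right _ hJ))
  intro j _
  rcases (B.filter fun p => G.dist o p = j).eq_empty_or_nonempty with h | ⟨p0, hp0⟩
  · rw [h]
    simp
  · rw [Finset.mem_filter] at hp0
    refine hG.card_le (o := o) (k := G.dist o (F p0)) _ ?_ ?_ ?_ ?_ hΔ
    · intro q hq
      rw [Finset.mem_image] at hq
      obtain ⟨p, hp, rfl⟩ := hq
      rw [Finset.mem_filter] at hp
      exact hF2 _ _ (by rw [hp.2, hp0.2])
    · intro p hp q hq
      rw [Finset.mem_image] at hp hq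
      obtain ⟨p', hp', rfl⟩ := hp
      obtain ⟨q', hq', rfl⟩ := hq
      rw [Finset.mem_filter] at hp' hq'
      exact ha p' hp'.1 q' hq'.1 (by rw [hp'.2, hq'.2])
    · intro p hp q hq
      rw [Finset.mem_image] at hp hq
      obtain ⟨p', hp', rfl⟩ := hp
      obtain ⟨q', hq', rfl⟩ := hq
      rw [Finset.mem_filter] at hp' hq'
      exact hb p' hp'.1 q' hq'.1 (by rw [hp'.2, hq'.2])
    · intro p hp q hq
      rw [Finset.mem_image] at hp hq
      obtain ⟨p', hp', rfl⟩ := hp
      obtain ⟨q', hq', rfl⟩ := hq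
      rw [Finset.mem_filter] at hp' hq'
      have h4 := hB p' hp'.1
      have h5 := hB q' hq'.1
      have h6 := hG.tri p' x q'
      rw [SimpleGraph.dist_comm (u := p') (v := x)] at h6
      have h7 := hF1 p' q'
      omega


end BrL

end Pool.Agent.H818.SY
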